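import Mathlib
import Pool.Agent.H78.PB.Stm
import Pool.Agent.N892.BW.SUQ
import Pool.Agent.N892.BW.LPS_B
import Pool.Agent.N892.BW.BAS
import Pool.Agent.N892.BW.CNV

/-!
Project PB, part CRS, first file: the nonlinearity, moments of the low-pass kernel, orthogonality (helper33).
-/

set_option autoImplicit false

open MeasureTheory ENNReal Filter Topology Complex
open scoped ComplexConjugate ContDiff

namespace Pool.Agent.H33PB.CRS

open Pool.Agent.N892.BW Pool.Agent.H78.PB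

/-- the nonlinearity `‖z‖ ^ s conj z` -/
noncomputable def gf (s : ℝ) (z : ℂ) : ℂ := ((‖z‖ ^ s : ℝ) : ℂ) * conj z

theorem gf_norm (s : ℝ) (z : ℂ) : ‖gf s z‖ = ‖z‖ ^ s * ‖z‖ := by
  unfold gf
  rw [norm_mul, Complex.norm_real, RCLike.norm_conj, Real.norm_of_nonneg (by positivity)]

theorem gf_cont {s : ℝ} (hs : 0 ≤ s) : Continuous (gf s) := by
  unfold gf
  refine Continuous.mul ?_ continuous_conj
  exact Complex.continuous_ofReal.comp (continuous_norm.rpow_const fun _ => Or.inr hs)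

theorem tangent {s : ℝ} (hs : 0 ≤ s) {x y : ℝ} (hy : 0 ≤ y) (hyx : y ≤ x) :
    (x ^ s - y ^ s) * y ≤ s * x ^ s * (x - y) := by
  rcases hyx.eq_or_lt with h0 | h0
  · rw [h0]
    simp
  have hx : 0 < x := hy.trans_lt h0
  have h1 := one_add_mul_self_le_rpow_one_add (s := y / x - 1) (by
    have : 0 ≤ y / x := by positivity
    linarith) (p := 1 + s) (by linarith)
  have h2 : 1 + (y / x - 1) = y / x := by ring
  rw [h2, Real.div_rpow hy hx.le, le_div_iff₀ (by positivity)] at h1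
  have h3 : x ^ (1 + s) = x * x ^ s := by
    rw [Real.rpow_add hx, Real.rpow_one]
  have h4 : y ^ (1 + s) = y * y ^ s := by
    rcases hy.eq_or_lt with h5 | h5
    · rw [← h5, Real.zero_rpow (by linarith), zero_mul]
    · rw [Real.rpow_add h5, Real.rpow_one]
  rw [h3, h4] at h1
  have h5 : (1 + (1 + s) * (y / x - 1)) * (x * x ^ s) = x ^ s * (x + (1 + s) * (y - x)) := by
    field_simp
  rw [h5] at h1
  nlinarith

theorem gf_lip {s : ℝ} (hs : 0 ≤ s) (z z' : ℂ) :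
    ‖gf s z - gf s z'‖ ≤ (1 + s) * (‖z‖ + ‖z'‖) ^ s * ‖z - z'‖ := by
  wlog h : ‖z'‖ ≤ ‖z‖ generalizing z z' with H
  · have h1 := H z' z (by linarith)
    rw [norm_sub_rev, norm_sub_rev z z', add_comm ‖z‖]
    exact h1
  have h1 : gf s z - gf s z' = ((‖z‖ ^ s : ℝ) : ℂ) * conj (z - z') +
      ((‖z‖ ^ s - ‖z'‖ ^ s : ℝ) : ℂ) * conj z' := by
    unfold gf
    rw [map_sub]
    push_cast
    ring
  have h2 : ‖z'‖ ^ s ≤ ‖z‖ ^ s := Real.rpow_le_rpow (norm_nonneg _) h hs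
  have h3 := tangent hs (norm_nonneg z') h
  have h4 : ‖z‖ - ‖z'‖ ≤ ‖z - z'‖ := norm_sub_norm_le z z'
  have h5 : (0 : ℝ) ≤ ‖z‖ ^ s := by positivity
  have h6 : ‖z‖ ^ s ≤ (‖z‖ + ‖z'‖) ^ s :=
    Real.rpow_le_rpow (norm_nonneg _) (by linarith [norm_nonneg z']) hs
  rw [h1]
  calc ‖((‖z‖ ^ s : ℝ) : ℂ) * conj (z - z') + ((‖z‖ ^ s - ‖z'‖ ^ s : ℝ) : ℂ) * conj z'‖
      ≤ ‖((‖z‖ ^ s : ℝ) : ℂ) * conj (z - z')‖ + ‖((‖z‖ ^ s - ‖z'‖ ^ s : ℝ) : ℂ) * conj z'‖ :=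
        norm_add_le _ _
    _ = ‖z‖ ^ s * ‖z - z'‖ + (‖z‖ ^ s - ‖z'‖ ^ s) * ‖z'‖ := by
        rw [norm_mul, norm_mul, Complex.norm_real, Complex.norm_real, RCLike.norm_conj,
          RCLike.norm_conj, Real.norm_of_nonneg h5, Real.norm_of_nonneg (by linarith)]
    _ ≤ ‖z‖ ^ s * ‖z - z'‖ + s * ‖z‖ ^ s * (‖z‖ - ‖z'‖) := by linarith
    _ ≤ ‖z‖ ^ s * ‖z - z'‖ + s * ‖z‖ ^ s * ‖z - z'‖ := by
        have : 0 ≤ s * ‖z‖ ^ s := by positivity
        nlinarith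
    _ = (1 + s) * ‖z‖ ^ s * ‖z - z'‖ := by ring
    _ ≤ (1 + s) * (‖z‖ + ‖z'‖) ^ s * ‖z - z'‖ := by gcongr

/-- the moment of the low-pass kernel -/
theorem lp_moment : ∃ K : ℝ, 0 ≤ K ∧ ∀ c : ℝ, 0 < c →
    ∫⁻ y, ‖Fi (lp c) y‖ₑ * ENNReal.ofReal (‖y‖ * (1 + c * ‖y‖) ^ 20) ≤ ENNReal.ofReal (K * c⁻¹) := by
  have hB : Bd 0 (2 * 1) LPS.th0 := by
    have h1 := LPS.lp_Bd 1 one_pos
    have h2 : lp 1 = LPS.th0 := by
      rw [LPS.lp_eq]
      funext ξ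
      simp
    rwa [h2] at h1
  obtain ⟨C, hC⟩ := (BAS.t _ _ hB).2.1 24
  have hC0 : 0 ≤ C := by
    have h0 : 0 ≤ ‖Fi LPS.th0 0‖ * (1 + ‖(0 : ℂ)‖) ^ 24 := by positivity
    exact h0.trans (hC 0)
  have hjap : Integrable fun x : ℂ => (1 + ‖x‖) ^ (-(3 : ℝ)) := by
    apply integrable_one_add_norm
    rw [Complex.finrank_real_complex]
    norm_num
  obtain ⟨g, hg⟩ : ∃ g : ℂ → ℝ≥0∞, ∀ y, g y = ‖Fi LPS.th0 y‖ₑ *
    ENNReal.ofReal (‖y‖ * (1 + ‖y‖) ^ 20) := ⟨_, fun _ => rfl⟩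
  have hfin : ∫⁻ y, g y ≠ ⊤ := by
    have h1 : ∫⁻ y : ℂ, g y ≤
        ∫⁻ y : ℂ, ENNReal.ofReal C * ENNReal.ofReal ((1 + ‖y‖) ^ (-(3 : ℝ))) := by
      refine lintegral_mono fun y => ?_
      rw [hg, ← ofReal_norm, ← ENNReal.ofReal_mul (norm_nonneg _), ← ENNReal.ofReal_mul hC0]
      apply ENNReal.ofReal_le_ofReal
      rw [Real.rpow_neg (by positivity), show (3 : ℝ) = ((3 : ℕ) : ℝ) by norm_num,
        Real.rpow_natCast, ← div_eq_mul_inv, le_div_iff₀ (by positivity)]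
      have hy := norm_nonneg y
      calc ‖Fi LPS.th0 y‖ * (‖y‖ * (1 + ‖y‖) ^ 20) * (1 + ‖y‖) ^ 3
          ≤ ‖Fi LPS.th0 y‖ * ((1 + ‖y‖) * (1 + ‖y‖) ^ 20) * (1 + ‖y‖) ^ 3 := by
            gcongr
            linarith
        _ = ‖Fi LPS.th0 y‖ * (1 + ‖y‖) ^ 24 := by ring
        _ ≤ C := hC y
    refine ne_top_of_le_ne_top ?_ h1
    rw [lintegral_const_mul' _ _ ENNReal.ofReal_ne_top]
    refine ENNReal.mul_ne_top ENNReal.ofReal_ne_top ?_
    have h3 : ∫⁻ y : ℂ, ENNReal.ofReal ((1 + ‖y‖) ^ (-(3 : ℝ))) =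
        ∫⁻ y : ℂ, ‖(1 + ‖y‖) ^ (-(3 : ℝ))‖ₑ := by
      refine lintegral_congr fun y => ?_
      rw [← ofReal_norm, Real.norm_of_nonneg (by positivity)]
    rw [h3]
    exact hjap.2.ne
  refine ⟨_, ENNReal.toReal_nonneg (a := ∫⁻ y, g y), fun c hc => ?_⟩
  have e : ∀ x, Fi (lp c) x = ((c ^ 2 : ℝ) : ℂ) * Fi LPS.th0 ((c : ℂ) * x) := by
    intro x
    rw [LPS.lp_eq]
    exact LOW.Fi_scale LPS.th0 c hc x
  have h1 : ∀ y, ‖Fi (lp c) y‖ₑ * ENNReal.ofReal (‖y‖ * (1 + c * ‖y‖) ^ 20) =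
      ENNReal.ofReal c * g ((c : ℂ) * y) := by
    intro y
    rw [e, hg, enorm_mul, norm_mul, Complex.norm_real, Real.norm_of_nonneg hc.le,
      ← ofReal_norm (((c ^ 2 : ℝ) : ℂ)), Complex.norm_real, Real.norm_of_nonneg (by positivity),
      ← ofReal_norm (Fi LPS.th0 ((c : ℂ) * y)), ← ENNReal.ofReal_mul (by positivity),
      ← ENNReal.ofReal_mul (by positivity), ← ENNReal.ofReal_mul (by positivity),
      ← ENNReal.ofReal_mul (by positivity)]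
    congr 1
    ring
  rw [lintegral_congr h1, lintegral_const_mul' _ _ ENNReal.ofReal_ne_top,
    SUP.lint_scale hc.ne' g, ENNReal.ofReal_mul ENNReal.toReal_nonneg, ENNReal.ofReal_toReal hfin,
    ← mul_assoc, ← ENNReal.ofReal_mul hc.le, mul_comm (∫⁻ y, g y)]
  refine mul_le_mul' (ENNReal.ofReal_le_ofReal (le_of_eq ?_)) le_rfl
  field_simp

/-- the integral of the low-pass kernel -/
theorem lp_int {c : ℝ} (hc : 0 < c) : ∫ x, Fi (lp c) x = 1 := by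
  have h1 := (BAS.t _ _ (LPS.lp_Bd c hc)).2.2.2.1 0
  rw [LPF.lp_one c 0 hc (by simpa using hc.le)] at h1
  rw [h1]
  refine integral_congr_ae (Eventually.of_forall fun x => ?_)
  show Fi (lp c) x = conj (e2 x 0) * Fi (lp c) x
  have : e2 x 0 = 1 := by
    unfold e2
    simp
  rw [this]
  simp

/-- the high-frequency part does not see the low-pass kernel -/
theorem lp_high {c b : ℝ} (hc : 0 < c) {h : ℂ → ℂ} (hh : Bd (2 * c) b h) (x : ℂ) :
    ∫ z, Fi (lp c) (x - z) * Fi h z = 0 := by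
  have hh0 : Bd 0 (max (2 * c) b) h := ⟨hh.1, fun ξ hξ => ⟨norm_nonneg _, (hh.2 ξ hξ).2.trans (le_max_right _ _)⟩⟩
  have hl : Bd 0 (max (2 * c) b) (lp c) := LPS.Bd_mono (LPS.lp_Bd c hc) (le_max_left _ _)
  have h1 := (CNV.t BAS.t _ _ _ hl hh0 x).2
  rw [← h1]
  have h2 : (fun ξ => lp c ξ * h ξ) = fun _ => 0 := by
    funext ξ
    by_cases h3 : h ξ = 0
    · rw [h3, mul_zero]
    · rw [LPF.lp_zero c ξ hc (hh.2 ξ h3).1, zero_mul]
  rw [h2]
  exact SUQ.Fi_zero x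

/-- the cross term by differences -/
theorem cross_bd {s c b b' : ℝ} (hs : 0 ≤ s) (hc : 0 < c) {h₁ h₂ : ℂ → ℂ} (H₁ : Bd 0 b h₁)
    (H₂ : Bd (2 * c) b' h₂) :
    ENNReal.ofReal |∫ x, ‖Fi h₁ x‖ ^ s * (conj (Fi h₁ x) * Fi h₂ x).re| ≤
      ∫⁻ x, ∫⁻ y, ‖Fi (lp c) y‖ₑ * ‖gf s (Fi h₁ x) - gf s (Fi h₁ (x + y))‖ₑ * ‖Fi h₂ x‖ₑ := by
  obtain ⟨huc, -, ⟨hum, hui, ⟨Mu, hMu⟩⟩, -, -⟩ := BAS.t _ _ H₁
  obtain ⟨hvc, -, ⟨hvm, hvi, ⟨Mv, hMv⟩⟩, -, -⟩ := BAS.t _ _ (SUP.Bd_zero H₂)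
  obtain ⟨hφc, -, ⟨hφm, hφi, -⟩, -, -⟩ := BAS.t _ _ (LPS.lp_Bd c hc)
  obtain ⟨u, hu⟩ : ∃ u : ℂ → ℂ, u = Fi h₁ := ⟨_, rfl⟩
  obtain ⟨v, hv⟩ : ∃ v : ℂ → ℂ, v = Fi h₂ := ⟨_, rfl⟩
  obtain ⟨φ, hφ⟩ : ∃ φ : ℂ → ℂ, φ = Fi (lp c) := ⟨_, rfl⟩
  have hort := lp_high hc H₂
  have hone := lp_int hc
  rw [← hu] at huc hum hui hMu ⊢
  rw [← hv] at hvc hvm hvi hMv ⊢
  rw [← hφ] at hφc hφm hφi hone ⊢
  rw [← hφ, ← hv] at hort
  obtain ⟨g, hg⟩ : ∃ g : ℂ → ℂ, ∀ x, g x = gf s (u x) := ⟨_, fun _ => rfl⟩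
  simp only [← hg]
  have hgc : Continuous g := by
    have : g = fun x => gf s (u x) := funext hg
    rw [this]
    exact (gf_cont hs).comp huc
  have hMu0 : 0 ≤ Mu := (norm_nonneg _).trans (hMu 0)
  have hgb : ∀ x, ‖g x‖ ≤ Mu ^ s * Mu := by
    intro x
    rw [hg, gf_norm]
    have := hMu x
    gcongr
  -- integrability of products
  have hgv : Integrable fun x => g x * v x := hvi.bdd_mul hgc.aestronglyMeasurable (c := Mu ^ s * Mu)
    (Eventually.of_forall hgb)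
  have hprod1 : Integrable (fun q : ℂ × ℂ => φ q.2 * (g q.1 * v q.1)) (volume.prod volume) := by
    have h1 := hgv.mul_prod hφi
    refine h1.congr (Eventually.of_forall fun q => ?_)
    show g q.1 * v q.1 * φ q.2 = _
    ring
  have hprod2 : Integrable (fun q : ℂ × ℂ => φ q.2 * (g (q.1 + q.2) * v q.1)) (volume.prod volume) := by
    have h1 := hvi.mul_prod hφi
    have h2 := h1.bdd_mul (f := fun q : ℂ × ℂ => g (q.1 + q.2)) (c := Mu ^ s * Mu)
      (hgc.comp (continuous_fst.add continuous_snd)).aestronglyMeasurable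
      (Eventually.of_forall fun q => hgb _)
    refine h2.congr (Eventually.of_forall fun q => ?_)
    show g (q.1 + q.2) * (v q.1 * φ q.2) = _
    ring
  have hprod3 : Integrable (fun q : ℂ × ℂ => g q.2 * (φ (q.2 - q.1) * v q.1)) (volume.prod volume) := by
    have h1 := Integrable.convolution_integrand (ContinuousLinearMap.mul ℝ ℂ) (μ := volume) hvi hφi
    have h2 := h1.swap
    have h3 := h2.bdd_mul (f := fun q : ℂ × ℂ => g q.2) (c := Mu ^ s * Mu)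
      (hgc.comp continuous_snd).aestronglyMeasurable (Eventually.of_forall fun q => hgb _)
    refine h3.congr (Eventually.of_forall fun q => ?_)
    show g q.2 * (v q.1 * φ (q.2 - q.1)) = _
    ring
  -- the first integral
  have hI1 : ∫ x, ∫ y, φ y * (g x * v x) = ∫ x, g x * v x := by
    refine integral_congr_ae (Eventually.of_forall fun x => ?_)
    show ∫ y, φ y * (g x * v x) = g x * v x
    rw [integral_mul_const, hone, one_mul]
  -- the second integral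
  have hI2 : ∫ x, ∫ y, φ y * (g (x + y) * v x) = 0 := by
    have h1 : ∀ x, ∫ y, φ y * (g (x + y) * v x) = ∫ z, g z * (φ (z - x) * v x) := by
      intro x
      rw [← integral_sub_right_eq_self (fun y => φ y * (g (x + y) * v x)) x]
      refine integral_congr_ae (Eventually.of_forall fun z => ?_)
      show φ (z - x) * (g (x + (z - x)) * v x) = _
      rw [add_sub_cancel]
      ring
    simp only [h1]
    rw [integral_integral_swap hprod3]
    have h2 : ∀ z, ∫ x, g z * (φ (z - x) * v x) = 0 := by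
      intro z
      rw [integral_const_mul, hort z, mul_zero]
    simp [h2]
  have hI : ∫ x, g x * v x = ∫ x, ∫ y, φ y * ((g x - g (x + y)) * v x) := by
    have h1 : ∫ x, ∫ y, φ y * ((g x - g (x + y)) * v x) =
        (∫ x, ∫ y, φ y * (g x * v x)) - ∫ x, ∫ y, φ y * (g (x + y) * v x) := by
      rw [← integral_integral_sub hprod1 hprod2]
      refine integral_congr_ae (Eventually.of_forall fun x => ?_)
      refine integral_congr_ae (Eventually.of_forall fun y => ?_)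
      show φ y * ((g x - g (x + y)) * v x) = φ y * (g x * v x) - φ y * (g (x + y) * v x)
      ring
    rw [h1, hI1, hI2, sub_zero]
  have hre : ∫ x, ‖u x‖ ^ s * (conj (u x) * v x).re = (∫ x, g x * v x).re := by
    have h1 := integral_re hgv
    simp only [RCLike.re_eq_complex_re] at h1
    rw [← h1]
    refine integral_congr_ae (Eventually.of_forall fun x => ?_)
    show ‖u x‖ ^ s * (conj (u x) * v x).re = (g x * v x).re
    rw [hg]
    unfold gf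
    rw [mul_assoc, Complex.re_ofReal_mul]
  rw [hre]
  have h2 : ENNReal.ofReal |(∫ x, g x * v x).re| ≤ ‖∫ x, g x * v x‖ₑ := by
    rw [← ofReal_norm]
    exact ENNReal.ofReal_le_ofReal (Complex.abs_re_le_norm _)
  refine h2.trans ?_
  rw [hI]
  refine (enorm_integral_le_lintegral_enorm _).trans ?_
  refine lintegral_mono fun x => ?_
  refine (enorm_integral_le_lintegral_enorm _).trans ?_
  refine lintegral_mono fun y => ?_
  show ‖φ y * ((g x - g (x + y)) * v x)‖ₑ ≤ _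
  rw [enorm_mul, enorm_mul, mul_assoc]

end Pool.Agent.H33PB.CRS
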