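import Mathlib
import Pool.Agent.H33PB.CRSA
import Pool.Agent.N892.BW.MAJ
import Pool.Agent.N892.BW.RDM
import Pool.Agent.N892.BW.HLM

/-!
Project PB, part CRS: the cross terms of a separated family (helper33).
-/

set_option autoImplicit false

open MeasureTheory ENNReal Filter Topology Complex
open scoped ComplexConjugate ContDiff

namespace Pool.Agent.H33PB.CRS

open Pool.Agent.N892.BW Pool.Agent.H78.PB

theorem hc2 : (2 : ℝ).HolderConjugate 2 := by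
  rw [Real.holderConjugate_iff]
  norm_num

theorem sqrt_sq (x : ℝ≥0∞) : (x ^ 2) ^ (1 / 2 : ℝ) = x := by
  rw [← ENNReal.rpow_natCast, ← ENNReal.rpow_mul]
  norm_num

theorem sqrt_sq' (x : ℝ≥0∞) : (x ^ (1 / 2 : ℝ)) ^ (2 : ℝ) = x := by
  rw [← ENNReal.rpow_mul]
  norm_num

/-- the bound of one cross term -/
theorem one_k {m M : ℕ} {a b : ℕ → ℝ} {H : ℕ → ℂ → ℂ} (hm : 1 ≤ m) (hS : Sep m M a b H)
    {s C1 C2 cP K : ℝ} (hs : 0 < s) (hs4 : s ≤ 4) (hC1 : 0 ≤ C1) (hC2 : 0 ≤ C2) (hcP0 : 0 ≤ cP) (hK : 0 ≤ K)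
    (hMAJ : ∀ (b : ℝ) (h : ℂ → ℂ) (x y : ℂ), 0 < b → Bd 0 b h →
      ‖Fi h (x + y) - Fi h x‖ₑ ≤
        ENNReal.ofReal (C1 * (b * ‖y‖) * (1 + b * ‖y‖) ^ 4) * cv (PP b) (fun z => ‖Fi h z‖ₑ) x)
    (hLOW : ∀ (b b' : ℝ) (h₁ h₂ : ℂ → ℂ) (x y : ℂ), 0 < b → Bd 0 b h₁ → Bd (2 * b) b' h₂ →
      ‖Fi h₁ (x + y)‖ₑ ≤ ENNReal.ofReal (C2 * (1 + b * ‖y‖) ^ 4) *
        mx (fun z => ‖Fi (fun ξ => h₁ ξ + h₂ ξ) z‖ₑ) x)
    (hcP : ∀ β : ℝ, 0 < β → ∫⁻ x, PP β x ≤ ENNReal.ofReal cP)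
    (hmom : ∀ c : ℝ, 0 < c →
      ∫⁻ y, ‖Fi (lp c) y‖ₑ * ENNReal.ofReal (‖y‖ * (1 + c * ‖y‖) ^ 20) ≤ ENNReal.ofReal (K * c⁻¹))
    {W : ℂ → ℝ≥0∞} (hW : W = mx (fun z => ‖Fi (sm H M) z‖ₑ))
    {k : ℕ} (hk : k < M) :
    ENNReal.ofReal |∫ x, ‖Fi (sm H k) x‖ ^ s * (conj (Fi (sm H k) x) * Fi (H k) x).re| ≤
      ∫⁻ x, ENNReal.ofReal ((1 + s) * (2 * C2) ^ s * (2 * C1 ^ 2 * cP) ^ (1 / 2 : ℝ) * (2 * K)) *
        (W x ^ s * (‖Fi (H k) x‖ₑ *
          (ENNReal.ofReal (SUQ.bt b k / a k ^ 2) * SUQ.RR b H k x) ^ (1 / 2 : ℝ))) := by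
  obtain ⟨ha0, hab, hBd2, -⟩ := hS k hk
  rcases k with _ | i
  · have h0 : ∀ x, ‖Fi (sm H 0) x‖ ^ s * (conj (Fi (sm H 0) x) * Fi (H 0) x).re = 0 := by
      intro x
      rw [SUQ.sm_zero, SUQ.Fi_zero]
      simp
    rw [integral_congr_ae (Eventually.of_forall h0)]
    simp
  have hbk : 0 < b i := SUQ.bt_pos hS (k := i) (by omega)
  have hBd := SUQ.Bd_sm hm hS (i + 1) hk.le
  have hbt : SUQ.bt b (i + 1) = b i := rfl
  have hgap := SUQ.bt_gap hm hS hk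
  rw [hbt] at hBd hgap ⊢
  obtain ⟨c, hc⟩ : ∃ c : ℝ, c = a (i + 1) / 2 := ⟨_, rfl⟩
  have hc0 : 0 < c := by rw [hc]; positivity
  have hbc : b i ≤ c := by rw [hc]; linarith
  have hBd2' : Bd (2 * c) (b (i + 1)) (H (i + 1)) := by
    have : 2 * c = a (i + 1) := by rw [hc]; ring
    rwa [this]
  refine (cross_bd hs.le hc0 hBd hBd2').trans ?_
  obtain ⟨u, hu⟩ : ∃ u : ℂ → ℂ, u = Fi (sm H (i + 1)) := ⟨_, rfl⟩
  obtain ⟨v, hv⟩ : ∃ v : ℂ → ℂ, v = Fi (H (i + 1)) := ⟨_, rfl⟩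
  rw [← hu, ← hv]
  have hrest : ∀ x y, ‖u (x + y)‖ₑ ≤ ENNReal.ofReal (C2 * (1 + b i * ‖y‖) ^ 4) * W x := by
    intro x y
    obtain ⟨d, hd⟩ : ∃ d, i + 1 + d = M := ⟨M - (i + 1), by omega⟩
    have h2 := SUQ.Bd_rest hm hS (k := i + 1) d (by omega)
    rw [hbt, hd] at h2
    have h3 := hLOW (b i) _ _ _ x y hbk hBd h2
    have h4 : (fun ξ => sm H (i + 1) ξ + (sm H M ξ - sm H (i + 1) ξ)) = sm H M := by
      funext ξ
      ring
    rw [h4, ← hW, ← hu] at h3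
    exact h3
  have hsum : ∀ x y, ‖u x‖ₑ + ‖u (x + y)‖ₑ ≤
      ENNReal.ofReal (2 * C2 * (1 + b i * ‖y‖) ^ 4) * W x := by
    intro x y
    have hy := norm_nonneg y
    have h2 := hrest x 0
    rw [add_zero, norm_zero, mul_zero, add_zero, one_pow, mul_one] at h2
    have h3 : ENNReal.ofReal C2 * W x ≤ ENNReal.ofReal (C2 * (1 + b i * ‖y‖) ^ 4) * W x := by
      refine mul_le_mul' (ENNReal.ofReal_le_ofReal ?_) le_rfl
      have : (1 : ℝ) ≤ (1 + b i * ‖y‖) ^ 4 := one_le_pow₀ (by nlinarith)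
      nlinarith
    calc ‖u x‖ₑ + ‖u (x + y)‖ₑ ≤ ENNReal.ofReal (C2 * (1 + b i * ‖y‖) ^ 4) * W x +
          ENNReal.ofReal (C2 * (1 + b i * ‖y‖) ^ 4) * W x :=
            add_le_add (h2.trans h3) (hrest x y)
      _ = ENNReal.ofReal (2 * C2 * (1 + b i * ‖y‖) ^ 4) * W x := by
          rw [← add_mul, ← ENNReal.ofReal_add (by positivity) (by positivity)]
          congr 2
          ring
  -- the nonlinearity
  have hgf : ∀ x y, ‖gf s (u x) - gf s (u (x + y))‖ₑ ≤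
      ENNReal.ofReal (1 + s) * (‖u x‖ₑ + ‖u (x + y)‖ₑ) ^ s * ‖u (x + y) - u x‖ₑ := by
    intro x y
    have h2 := gf_lip hs.le (u x) (u (x + y))
    rw [norm_sub_rev (u x) (u (x + y))] at h2
    have h3 := ENNReal.ofReal_le_ofReal h2
    rw [ENNReal.ofReal_mul (by positivity), ENNReal.ofReal_mul (by positivity),
      ← ENNReal.ofReal_rpow_of_nonneg (by positivity) hs.le,
      ENNReal.ofReal_add (norm_nonneg _) (norm_nonneg _), ofReal_norm, ofReal_norm, ofReal_norm,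
      ofReal_norm] at h3
    exact h3
  have hdif : ∀ x y, ‖u (x + y) - u x‖ₑ ≤
      ENNReal.ofReal ((2 * C1 ^ 2 * cP) ^ (1 / 2 : ℝ) * (‖y‖ * (1 + b i * ‖y‖) ^ 4)) *
        (ENNReal.ofReal (b i) * SUQ.RR b H (i + 1) x) ^ (1 / 2 : ℝ) := by
    intro x y
    have hy := norm_nonneg y
    have h2 := SUQ.diff_bd BAS.t hm hS hC1 hcP0 hMAJ hcP x y (i + 1) hk.le
    rw [← hu, hbt] at h2
    have h3 := ENNReal.rpow_le_rpow h2 (by norm_num : (0 : ℝ) ≤ 1 / 2)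
    rw [sqrt_sq] at h3
    refine h3.trans (le_of_eq ?_)
    rw [ENNReal.mul_rpow_of_nonneg _ _ (by norm_num : (0 : ℝ) ≤ 1 / 2),
      ENNReal.mul_rpow_of_nonneg _ _ (by norm_num : (0 : ℝ) ≤ 1 / 2),
      ENNReal.ofReal_rpow_of_nonneg (by positivity) (by norm_num),
      ENNReal.ofReal_rpow_of_nonneg (by positivity) (by norm_num),
      ← mul_assoc (ENNReal.ofReal ((2 * C1 ^ 2 * cP) ^ (1 / 2 : ℝ) * (‖y‖ * (1 + b i * ‖y‖) ^ 4))),
      ← ENNReal.ofReal_mul (by positivity)]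
    congr 2
    have h4 : 2 * C1 ^ 2 * cP * (‖y‖ ^ 2 * (1 + b i * ‖y‖) ^ 8) * b i =
        (2 * C1 ^ 2 * cP) * (‖y‖ * (1 + b i * ‖y‖) ^ 4) ^ 2 * b i := by ring
    rw [h4, Real.mul_rpow (by positivity) hbk.le, Real.mul_rpow (by positivity) (by positivity)]
    congr 2
    rw [← Real.rpow_natCast, ← Real.rpow_mul (by positivity)]
    norm_num
  have hpt : ∀ x y, ‖Fi (lp c) y‖ₑ * ‖gf s (u x) - gf s (u (x + y))‖ₑ * ‖v x‖ₑ ≤
      (‖Fi (lp c) y‖ₑ * ENNReal.ofReal (‖y‖ * (1 + c * ‖y‖) ^ 20)) *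
        (ENNReal.ofReal ((1 + s) * (2 * C2) ^ s * (2 * C1 ^ 2 * cP) ^ (1 / 2 : ℝ)) *
          (W x ^ s * (‖v x‖ₑ * (ENNReal.ofReal (b i) * SUQ.RR b H (i + 1) x) ^ (1 / 2 : ℝ)))) := by
    intro x y
    have hy := norm_nonneg y
    rw [mul_assoc, mul_assoc]
    refine mul_le_mul' le_rfl ?_
    obtain ⟨R, hR⟩ : ∃ R : ℝ≥0∞, R = (ENNReal.ofReal (b i) * SUQ.RR b H (i + 1) x) ^ (1 / 2 : ℝ) :=
      ⟨_, rfl⟩
    have h5 := hdif x y
    rw [← hR] at h5 ⊢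
    have h6 : (‖u x‖ₑ + ‖u (x + y)‖ₑ) ^ s ≤
        ENNReal.ofReal ((2 * C2) ^ s * (1 + b i * ‖y‖) ^ 16) * W x ^ s := by
      refine (ENNReal.rpow_le_rpow (hsum x y) hs.le).trans ?_
      rw [ENNReal.mul_rpow_of_nonneg _ _ hs.le, ENNReal.ofReal_rpow_of_nonneg (by positivity) hs.le]
      refine mul_le_mul' (ENNReal.ofReal_le_ofReal ?_) le_rfl
      rw [Real.mul_rpow (by positivity) (by positivity)]
      refine mul_le_mul_of_nonneg_left ?_ (by positivity)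
      have h7 : (1 : ℝ) ≤ (1 + b i * ‖y‖) ^ 4 := one_le_pow₀ (by nlinarith)
      calc ((1 + b i * ‖y‖) ^ 4) ^ s ≤ ((1 + b i * ‖y‖) ^ 4) ^ (4 : ℝ) :=
            Real.rpow_le_rpow_of_exponent_le h7 hs4
        _ = (1 + b i * ‖y‖) ^ 16 := by
            rw [show (4 : ℝ) = ((4 : ℕ) : ℝ) by norm_num, Real.rpow_natCast]
            ring
    calc ‖gf s (u x) - gf s (u (x + y))‖ₑ * ‖v x‖ₑ
        ≤ (ENNReal.ofReal (1 + s) * (‖u x‖ₑ + ‖u (x + y)‖ₑ) ^ s * ‖u (x + y) - u x‖ₑ) * ‖v x‖ₑ :=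
          mul_le_mul' (hgf x y) le_rfl
      _ ≤ (ENNReal.ofReal (1 + s) * (ENNReal.ofReal ((2 * C2) ^ s * (1 + b i * ‖y‖) ^ 16) * W x ^ s) *
            (ENNReal.ofReal ((2 * C1 ^ 2 * cP) ^ (1 / 2 : ℝ) * (‖y‖ * (1 + b i * ‖y‖) ^ 4)) * R)) *
              ‖v x‖ₑ := by gcongr
      _ = (ENNReal.ofReal (1 + s) * ENNReal.ofReal ((2 * C2) ^ s * (1 + b i * ‖y‖) ^ 16) *
            ENNReal.ofReal ((2 * C1 ^ 2 * cP) ^ (1 / 2 : ℝ) * (‖y‖ * (1 + b i * ‖y‖) ^ 4))) *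
              (W x ^ s * (‖v x‖ₑ * R)) := by ring
      _ = ENNReal.ofReal ((‖y‖ * (1 + b i * ‖y‖) ^ 20) *
            ((1 + s) * (2 * C2) ^ s * (2 * C1 ^ 2 * cP) ^ (1 / 2 : ℝ))) *
              (W x ^ s * (‖v x‖ₑ * R)) := by
          rw [← ENNReal.ofReal_mul (by positivity), ← ENNReal.ofReal_mul (by positivity)]
          congr 2
          ring
      _ ≤ ENNReal.ofReal ((‖y‖ * (1 + c * ‖y‖) ^ 20) *
            ((1 + s) * (2 * C2) ^ s * (2 * C1 ^ 2 * cP) ^ (1 / 2 : ℝ))) *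
              (W x ^ s * (‖v x‖ₑ * R)) := by
          refine mul_le_mul' (ENNReal.ofReal_le_ofReal ?_) le_rfl
          gcongr
      _ = _ := by
          rw [ENNReal.ofReal_mul (by positivity), mul_assoc]
  have hφm : Measurable fun y : ℂ => ‖Fi (lp c) y‖ₑ * ENNReal.ofReal (‖y‖ * (1 + c * ‖y‖) ^ 20) := by
    have h1 := (BAS.t _ _ (LPS.lp_Bd c hc0)).1.measurable.enorm
    refine h1.mul (Measurable.ennreal_ofReal ?_)
    fun_prop
  refine lintegral_mono fun x => ?_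
  refine (lintegral_mono (hpt x)).trans ?_
  rw [lintegral_mul_const _ hφm]
  obtain ⟨X, hX⟩ : ∃ X : ℝ≥0∞, X = W x ^ s := ⟨_, rfl⟩
  rw [← hX]
  calc (∫⁻ y, ‖Fi (lp c) y‖ₑ * ENNReal.ofReal (‖y‖ * (1 + c * ‖y‖) ^ 20)) *
        (ENNReal.ofReal ((1 + s) * (2 * C2) ^ s * (2 * C1 ^ 2 * cP) ^ (1 / 2 : ℝ)) *
          (X * (‖v x‖ₑ * (ENNReal.ofReal (b i) * SUQ.RR b H (i + 1) x) ^ (1 / 2 : ℝ))))
      ≤ ENNReal.ofReal (K * c⁻¹) *
        (ENNReal.ofReal ((1 + s) * (2 * C2) ^ s * (2 * C1 ^ 2 * cP) ^ (1 / 2 : ℝ)) *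
          (X * (‖v x‖ₑ * (ENNReal.ofReal (b i) * SUQ.RR b H (i + 1) x) ^ (1 / 2 : ℝ)))) :=
        mul_le_mul' (hmom c hc0) le_rfl
    _ = ENNReal.ofReal ((1 + s) * (2 * C2) ^ s * (2 * C1 ^ 2 * cP) ^ (1 / 2 : ℝ) * (2 * K)) *
          (X * (‖v x‖ₑ * (ENNReal.ofReal ((a (i + 1))⁻¹) *
            (ENNReal.ofReal (b i) * SUQ.RR b H (i + 1) x) ^ (1 / 2 : ℝ)))) := by
        have e : K * c⁻¹ = (2 * K) * (a (i + 1))⁻¹ := by
          rw [hc]
          field_simp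
        rw [e, ENNReal.ofReal_mul (by positivity : 0 ≤ 2 * K),
          ENNReal.ofReal_mul (q := 2 * K) (by positivity)]
        ring
    _ = _ := by
        congr 3
        rw [ENNReal.mul_rpow_of_nonneg _ _ (by norm_num : (0 : ℝ) ≤ 1 / 2),
          ENNReal.mul_rpow_of_nonneg _ _ (by norm_num : (0 : ℝ) ≤ 1 / 2), ← mul_assoc]
        congr 1
        rw [ENNReal.ofReal_rpow_of_nonneg hbk.le (by norm_num),
          ENNReal.ofReal_rpow_of_nonneg (by positivity) (by norm_num),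
          ← ENNReal.ofReal_mul (by positivity)]
        congr 1
        rw [Real.div_rpow hbk.le (by positivity), ← Real.rpow_natCast (a (i + 1)),
          ← Real.rpow_mul ha0.le]
        norm_num
        rw [mul_comm, ← div_eq_mul_inv]

/-- the sum over the windows, pointwise -/
theorem sum_pt {m M : ℕ} {a b : ℕ → ℝ} {H : ℕ → ℂ → ℂ} (hm : 1 ≤ m) (hS : Sep m M a b H) {η : ℝ}
    (hη : 0 ≤ η) (hk : ∀ k, k + 1 < M → b k ≤ η * a (k + 1)) (x : ℂ) :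
    ∑ k ∈ Finset.range M, ‖Fi (H k) x‖ₑ *
        (ENNReal.ofReal (SUQ.bt b k / a k ^ 2) * SUQ.RR b H k x) ^ (1 / 2 : ℝ) ≤
      ENNReal.ofReal (2 * η) * ((∑ k ∈ Finset.range M, ‖Fi (H k) x‖ₑ ^ 2) ^ (1 / 2 : ℝ) *
        (∑ k ∈ Finset.range M, cv (PP (b k)) (fun z => ‖Fi (H k) z‖ₑ ^ 2) x) ^ (1 / 2 : ℝ)) := by
  obtain ⟨G, hG⟩ : ∃ G : ℕ → ℝ≥0∞, ∀ j, G j = cv (PP (b j)) (fun z => ‖Fi (H j) z‖ₑ ^ 2) x :=
    ⟨_, fun _ => rfl⟩
  have h1 := ENNReal.inner_le_Lp_mul_Lq (Finset.range M) (fun k => ‖Fi (H k) x‖ₑ)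
    (fun k => (ENNReal.ofReal (SUQ.bt b k / a k ^ 2) * SUQ.RR b H k x) ^ (1 / 2 : ℝ)) hc2
  have h2 : ∀ y : ℝ≥0∞, y ^ (2 : ℝ) = y ^ 2 := fun y => by
    rw [← ENNReal.rpow_natCast]
    norm_num
  simp only [sqrt_sq'] at h1
  simp only [h2] at h1
  refine h1.trans ?_
  have h3 : ∑ k ∈ Finset.range M, ENNReal.ofReal (SUQ.bt b k / a k ^ 2) * SUQ.RR b H k x ≤
      ENNReal.ofReal (2 * η ^ 2) * ∑ k ∈ Finset.range M, G k := by
    calc ∑ k ∈ Finset.range M, ENNReal.ofReal (SUQ.bt b k / a k ^ 2) * SUQ.RR b H k x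
        ≤ ∑ k ∈ Finset.range M, ENNReal.ofReal (η ^ 2) * SUQ.SS G k := by
          refine Finset.sum_le_sum fun k hk' => ?_
          have hkM := Finset.mem_range.1 hk'
          obtain ⟨ha0, -, -, -⟩ := hS k hkM
          have hbt0 := SUQ.bt_nonneg hS hkM.le
          have h4 : SUQ.RR b H k x ≤ ENNReal.ofReal (SUQ.bt b k) * SUQ.SS G k := by
            have h5 := SUQ.SS_bd hm hS G k hkM.le
            unfold SUQ.RR
            simp only [hG] at h5 ⊢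
            exact h5
          have h6 : SUQ.bt b k ≤ η * a k := by
            rcases k with _ | i
            · show (0 : ℝ) ≤ η * a 0
              positivity
            · exact hk i hkM
          refine (mul_le_mul' le_rfl h4).trans ?_
          rw [← mul_assoc, ← ENNReal.ofReal_mul (by positivity)]
          refine mul_le_mul' (ENNReal.ofReal_le_ofReal ?_) le_rfl
          rw [div_mul_eq_mul_div, div_le_iff₀ (by positivity)]
          nlinarith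
      _ = ENNReal.ofReal (η ^ 2) * ∑ k ∈ Finset.range M, SUQ.SS G k := by rw [Finset.mul_sum]
      _ ≤ ENNReal.ofReal (η ^ 2) * (2 * ∑ k ∈ Finset.range M, G k) := by
          refine mul_le_mul' le_rfl ?_
          rw [← SUQ.SS_sum]
          exact le_self_add
      _ = _ := by
          rw [← mul_assoc, mul_comm (2 : ℝ) (η ^ 2), ENNReal.ofReal_mul (by positivity)]
          norm_num
  have h4 : (∑ k ∈ Finset.range M, ENNReal.ofReal (SUQ.bt b k / a k ^ 2) * SUQ.RR b H k x) ^ (1 / 2 : ℝ) ≤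
      ENNReal.ofReal (2 * η) * (∑ k ∈ Finset.range M, G k) ^ (1 / 2 : ℝ) := by
    refine (ENNReal.rpow_le_rpow h3 (by norm_num)).trans ?_
    rw [ENNReal.mul_rpow_of_nonneg _ _ (by norm_num : (0 : ℝ) ≤ 1 / 2),
      ENNReal.ofReal_rpow_of_nonneg (by positivity) (by norm_num)]
    refine mul_le_mul' (ENNReal.ofReal_le_ofReal ?_) le_rfl
    rw [← Real.sqrt_eq_rpow]
    refine Real.sqrt_le_iff.2 ⟨by positivity, by nlinarith [sq_nonneg η]⟩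
  simp only [← hG]
  calc (∑ k ∈ Finset.range M, ‖Fi (H k) x‖ₑ ^ 2) ^ (1 / 2 : ℝ) *
      (∑ k ∈ Finset.range M, ENNReal.ofReal (SUQ.bt b k / a k ^ 2) * SUQ.RR b H k x) ^ (1 / 2 : ℝ)
      ≤ (∑ k ∈ Finset.range M, ‖Fi (H k) x‖ₑ ^ 2) ^ (1 / 2 : ℝ) *
        (ENNReal.ofReal (2 * η) * (∑ k ∈ Finset.range M, G k) ^ (1 / 2 : ℝ)) :=
        mul_le_mul' le_rfl h4
    _ = _ := by ring

/-- Hoelder's inequality with three factors -/
theorem hold {m : ℝ} (hm : 1 < m) {W A B : ℂ → ℝ≥0∞} (hW : Measurable W) (hA : Measurable A)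
    (hB : Measurable B) :
    ∫⁻ x, W x ^ (2 * m - 2) * (A x ^ (1 / 2 : ℝ) * B x ^ (1 / 2 : ℝ)) ≤
      (∫⁻ x, W x ^ (2 * m)) ^ (1 - 1 / m) *
        ((∫⁻ x, A x ^ m) ^ (1 / 2 : ℝ) * (∫⁻ x, B x ^ m) ^ (1 / 2 : ℝ)) ^ (1 / m) := by
  have hm0 : 0 < m := by linarith
  have hm1 : m - 1 ≠ 0 := by
    intro h
    linarith
  have hpq : (m / (m - 1)).HolderConjugate m := by
    rw [Real.holderConjugate_iff]
    refine ⟨by rw [lt_div_iff₀ (by linarith)]; linarith, ?_⟩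
    field_simp
    ring
  have h1 := ENNReal.lintegral_mul_le_Lp_mul_Lq (volume : Measure ℂ) hpq
    (f := fun x => W x ^ (2 * m - 2)) (g := fun x => A x ^ (1 / 2 : ℝ) * B x ^ (1 / 2 : ℝ))
    (hW.pow_const _).aemeasurable ((hA.pow_const _).mul (hB.pow_const _)).aemeasurable
  have e1 : ∀ x, (W x ^ (2 * m - 2)) ^ (m / (m - 1)) = W x ^ (2 * m) := by
    intro x
    rw [← ENNReal.rpow_mul]
    congr 1
    field_simp
  have e2 : 1 / (m / (m - 1)) = 1 - 1 / m := by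
    field_simp
  have h2 := ENNReal.lintegral_mul_le_Lp_mul_Lq (volume : Measure ℂ) hc2
    (f := fun x => A x ^ (m / 2)) (g := fun x => B x ^ (m / 2))
    (hA.pow_const _).aemeasurable (hB.pow_const _).aemeasurable
  have e3 : ∀ (y : ℝ≥0∞), (y ^ (m / 2)) ^ (2 : ℝ) = y ^ m := by
    intro y
    rw [← ENNReal.rpow_mul]
    congr 1
    field_simp
  have e4 : ∀ x, (A x ^ (1 / 2 : ℝ) * B x ^ (1 / 2 : ℝ)) ^ m = A x ^ (m / 2) * B x ^ (m / 2) := by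
    intro x
    rw [ENNReal.mul_rpow_of_nonneg _ _ hm0.le, ← ENNReal.rpow_mul, ← ENNReal.rpow_mul]
    congr 2 <;> ring
  simp only [e1, e2, e4] at h1
  simp only [e3] at h2
  refine h1.trans ?_
  gcongr
  exact h2

/-- **CRS.** -/
theorem t (h1 : R_DMX) : R_CRS := by
  intro m hm
  obtain ⟨hm1, hm3⟩ := hm
  obtain ⟨C1, hC1, hMAJ⟩ := MAJ.t BAS.t (CNV.t BAS.t)
  obtain ⟨C2, hC2, hLOW⟩ := LOW.t BAS.t (CNV.t BAS.t) RDM.t
  obtain ⟨cP, hcP0, hcP⟩ := SUQ.PP_mass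
  obtain ⟨K, hK, hmom⟩ := lp_moment
  obtain ⟨Ch, hCh, hH⟩ := HLM.t (2 * m) (by linarith)
  obtain ⟨Cd, hCd, hDm⟩ := h1 m ⟨hm1, hm3⟩
  obtain ⟨K1, hK1⟩ : ∃ K1 : ℝ, K1 = (1 + (2 * m - 2)) * (2 * C2) ^ (2 * m - 2) *
    (2 * C1 ^ 2 * cP) ^ (1 / 2 : ℝ) * (2 * K) := ⟨_, rfl⟩
  have hK10 : 0 ≤ K1 := by
    rw [hK1]
    have : 0 ≤ 1 + (2 * m - 2) := by linarith
    positivity
  have hmi : 0 ≤ 1 - 1 / m := by
    rw [sub_nonneg, div_le_one (by linarith)]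
    linarith
  refine ⟨K1 * 2 * (Ch ^ (1 - 1 / m) * (Cd ^ (1 / 2 : ℝ)) ^ (1 / m)), by positivity,
    fun M a b H η hη0 hη1 hS hη => ?_⟩
  have hwc : Continuous (Fi (sm H M)) := (BAS.t _ _ (SUQ.Bd_sm (by norm_num) hS M le_rfl)).1
  obtain ⟨W, hW⟩ : ∃ W : ℂ → ℝ≥0∞, W = mx (fun z => ‖Fi (sm H M) z‖ₑ) := ⟨_, rfl⟩
  obtain ⟨hWm, hWi⟩ := hH (fun z => ‖Fi (sm H M) z‖ₑ) hwc.measurable.enorm
  rw [← hW] at hWm hWi
  have hfc : ∀ j, j < M → Continuous (Fi (H j)) := by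
    intro j hj
    obtain ⟨-, -, h3, -⟩ := hS j hj
    exact (BAS.t _ _ (SUP.Bd_zero h3)).1
  obtain ⟨A, hA⟩ : ∃ A : ℂ → ℝ≥0∞, ∀ x, A x = ∑ k ∈ Finset.range M, ‖Fi (H k) x‖ₑ ^ 2 :=
    ⟨_, fun _ => rfl⟩
  obtain ⟨B, hB⟩ : ∃ B : ℂ → ℝ≥0∞, ∀ x, B x =
    ∑ k ∈ Finset.range M, cv (PP (b k)) (fun z => ‖Fi (H k) z‖ₑ ^ 2) x := ⟨_, fun _ => rfl⟩
  have hAm : Measurable A := by
    have : A = fun x => ∑ k ∈ Finset.range M, ‖Fi (H k) x‖ₑ ^ 2 := funext hA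
    rw [this]
    exact Finset.measurable_sum _ fun j hj =>
      (hfc j (Finset.mem_range.1 hj)).measurable.enorm.pow_const 2
  have hBm : Measurable B := by
    have : B = fun x => ∑ k ∈ Finset.range M, cv (PP (b k)) (fun z => ‖Fi (H k) z‖ₑ ^ 2) x :=
      funext hB
    rw [this]
    exact Finset.measurable_sum _ fun j hj => SUQ.cv_meas (SUQ.PP_meas _)
      ((hfc j (Finset.mem_range.1 hj)).measurable.enorm.pow_const 2)
  have hRRm : ∀ k, k < M → Measurable (SUQ.RR b H k) := by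
    intro k hk
    have : SUQ.RR b H k = fun x => ∑ j ∈ Finset.range k, ENNReal.ofReal (b j) *
      cv (PP (b j)) (fun z => ‖Fi (H j) z‖ₑ ^ 2) x := rfl
    rw [this]
    refine Finset.measurable_sum _ fun j hj => ?_
    have hj' := Finset.mem_range.1 hj
    exact (SUQ.cv_meas (SUQ.PP_meas _)
      ((hfc j (by omega)).measurable.enorm.pow_const 2)).const_mul _
  have hAi : ∫⁻ x, A x ^ m = Sr m M H := by
    unfold Sr
    simp only [hA]
  -- the dual maximal inequality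
  have hBi : ∫⁻ x, B x ^ m ≤ ENNReal.ofReal Cd * Sr m M H := by
    have h1 := hDm M (fun i => if i < M then b i else 1)
      (fun i x => if i < M then ‖Fi (H i) x‖ₑ ^ 2 else 0) (fun i => by
        by_cases hi : i < M
        · simp only [hi, if_true]
          exact SUQ.bt_pos hS hi
        · simp only [hi, if_false]
          norm_num) (fun i => by
        by_cases hi : i < M
        · simp only [hi, if_true]
          exact (hfc i hi).measurable.enorm.pow_const 2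
        · simp only [hi, if_false]
          exact measurable_const)
    have h2 : ∫⁻ x, (∑ i ∈ Finset.range M, cv (PP (if i < M then b i else 1))
        ((fun (i : ℕ) (x : ℂ) => if i < M then ‖Fi (H i) x‖ₑ ^ 2 else 0) i) x) ^ m =
        ∫⁻ x, B x ^ m := by
      refine lintegral_congr fun x => ?_
      rw [hB]
      congr 1
      refine Finset.sum_congr rfl fun j hj => ?_
      have hj' := Finset.mem_range.1 hj
      simp only [hj', if_true]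
    have h3 : ∫⁻ x, (∑ i ∈ Finset.range M,
        (fun (i : ℕ) (x : ℂ) => if i < M then ‖Fi (H i) x‖ₑ ^ 2 else 0) i x) ^ m = Sr m M H := by
      unfold Sr
      refine lintegral_congr fun x => ?_
      congr 1
      refine Finset.sum_congr rfl fun j hj => ?_
      have hj' := Finset.mem_range.1 hj
      simp only [hj', if_true]
    rw [h3] at h1
    rw [← h2]
    exact h1
  -- the sum
  have hstep : ∑ k ∈ Finset.range M, ENNReal.ofReal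
      |∫ x, ‖Fi (sm H k) x‖ ^ (2 * m - 2) * (conj (Fi (sm H k) x) * Fi (H k) x).re| ≤
      ENNReal.ofReal (K1 * (2 * η)) * ∫⁻ x, W x ^ (2 * m - 2) *
        (A x ^ (1 / 2 : ℝ) * B x ^ (1 / 2 : ℝ)) := by
    have hmeas : ∀ k ∈ Finset.range M, Measurable fun x => ENNReal.ofReal K1 *
        (W x ^ (2 * m - 2) * (‖Fi (H k) x‖ₑ *
          (ENNReal.ofReal (SUQ.bt b k / a k ^ 2) * SUQ.RR b H k x) ^ (1 / 2 : ℝ))) := by
      intro k hk
      have hk' := Finset.mem_range.1 hk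
      exact ((hWm.pow_const _).mul ((hfc k hk').measurable.enorm.mul
        (((hRRm k hk').const_mul _).pow_const _))).const_mul _
    calc ∑ k ∈ Finset.range M, ENNReal.ofReal
          |∫ x, ‖Fi (sm H k) x‖ ^ (2 * m - 2) * (conj (Fi (sm H k) x) * Fi (H k) x).re|
        ≤ ∑ k ∈ Finset.range M, ∫⁻ x, ENNReal.ofReal K1 *
          (W x ^ (2 * m - 2) * (‖Fi (H k) x‖ₑ *
            (ENNReal.ofReal (SUQ.bt b k / a k ^ 2) * SUQ.RR b H k x) ^ (1 / 2 : ℝ))) := by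
          refine Finset.sum_le_sum fun k hk => ?_
          rw [hK1]
          exact one_k (by norm_num) hS (by linarith) (by linarith) hC1 hC2 hcP0 hK
            (fun b h x y hb hh => (hMAJ b h x y hb hh).2) hLOW hcP hmom hW (Finset.mem_range.1 hk)
      _ = ∫⁻ x, ∑ k ∈ Finset.range M, ENNReal.ofReal K1 *
          (W x ^ (2 * m - 2) * (‖Fi (H k) x‖ₑ *
            (ENNReal.ofReal (SUQ.bt b k / a k ^ 2) * SUQ.RR b H k x) ^ (1 / 2 : ℝ))) :=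
          (lintegral_finsetSum _ hmeas).symm
      _ ≤ ∫⁻ x, ENNReal.ofReal (K1 * (2 * η)) * (W x ^ (2 * m - 2) *
            (A x ^ (1 / 2 : ℝ) * B x ^ (1 / 2 : ℝ))) := by
          refine lintegral_mono fun x => ?_
          rw [← Finset.mul_sum, ← Finset.mul_sum]
          have h5 := sum_pt (by norm_num) hS hη0 hη x
          rw [← hA, ← hB] at h5
          calc ENNReal.ofReal K1 * (W x ^ (2 * m - 2) * ∑ k ∈ Finset.range M, ‖Fi (H k) x‖ₑ *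
              (ENNReal.ofReal (SUQ.bt b k / a k ^ 2) * SUQ.RR b H k x) ^ (1 / 2 : ℝ))
              ≤ ENNReal.ofReal K1 * (W x ^ (2 * m - 2) * (ENNReal.ofReal (2 * η) *
                (A x ^ (1 / 2 : ℝ) * B x ^ (1 / 2 : ℝ)))) := by gcongr
            _ = _ := by
                rw [ENNReal.ofReal_mul hK10]
                ring
      _ = _ := lintegral_const_mul' _ _ ENNReal.ofReal_ne_top
  refine hstep.trans ?_
  have hh := hold (by linarith : 1 < m) hWm hAm hBm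
  rw [hAi] at hh
  have hfin : (∫⁻ x, W x ^ (2 * m)) ^ (1 - 1 / m) *
        ((Sr m M H) ^ (1 / 2 : ℝ) * (∫⁻ x, B x ^ m) ^ (1 / 2 : ℝ)) ^ (1 / m) ≤
      ENNReal.ofReal (Ch ^ (1 - 1 / m) * (Cd ^ (1 / 2 : ℝ)) ^ (1 / m)) *
        ((Sr m M H) ^ (1 / m) * (Nr m (Fi (sm H M))) ^ (1 - 1 / m)) := by
    have h5 : (∫⁻ x, W x ^ (2 * m)) ^ (1 - 1 / m) ≤
        ENNReal.ofReal (Ch ^ (1 - 1 / m)) * (Nr m (Fi (sm H M))) ^ (1 - 1 / m) := by
      refine (ENNReal.rpow_le_rpow hWi hmi).trans (le_of_eq ?_)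
      rw [ENNReal.mul_rpow_of_nonneg _ _ hmi, ENNReal.ofReal_rpow_of_nonneg hCh hmi]
      rfl
    have h6 : ((Sr m M H) ^ (1 / 2 : ℝ) * (∫⁻ x, B x ^ m) ^ (1 / 2 : ℝ)) ^ (1 / m) ≤
        ENNReal.ofReal ((Cd ^ (1 / 2 : ℝ)) ^ (1 / m)) * (Sr m M H) ^ (1 / m) := by
      have h7 : (Sr m M H) ^ (1 / 2 : ℝ) * (∫⁻ x, B x ^ m) ^ (1 / 2 : ℝ) ≤
          ENNReal.ofReal (Cd ^ (1 / 2 : ℝ)) * Sr m M H := by
        calc (Sr m M H) ^ (1 / 2 : ℝ) * (∫⁻ x, B x ^ m) ^ (1 / 2 : ℝ)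
            ≤ (Sr m M H) ^ (1 / 2 : ℝ) * (ENNReal.ofReal Cd * Sr m M H) ^ (1 / 2 : ℝ) := by
              gcongr
          _ = ENNReal.ofReal (Cd ^ (1 / 2 : ℝ)) *
                ((Sr m M H) ^ (1 / 2 : ℝ) * (Sr m M H) ^ (1 / 2 : ℝ)) := by
              rw [ENNReal.mul_rpow_of_nonneg _ _ (by norm_num : (0 : ℝ) ≤ 1 / 2),
                ENNReal.ofReal_rpow_of_nonneg hCd.le (by norm_num)]
              ring
          _ = _ := by
              rw [← ENNReal.rpow_add_of_nonneg _ _ (by norm_num) (by norm_num)]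
              norm_num
      have hmi2 : 0 ≤ 1 / m := by positivity
      refine (ENNReal.rpow_le_rpow h7 hmi2).trans (le_of_eq ?_)
      rw [ENNReal.mul_rpow_of_nonneg _ _ hmi2, ENNReal.ofReal_rpow_of_nonneg (by positivity) hmi2]
    refine (mul_le_mul' h5 h6).trans (le_of_eq ?_)
    rw [ENNReal.ofReal_mul (by positivity)]
    ring
  calc ENNReal.ofReal (K1 * (2 * η)) * ∫⁻ x, W x ^ (2 * m - 2) *
        (A x ^ (1 / 2 : ℝ) * B x ^ (1 / 2 : ℝ))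
      ≤ ENNReal.ofReal (K1 * (2 * η)) * (ENNReal.ofReal (Ch ^ (1 - 1 / m) * (Cd ^ (1 / 2 : ℝ)) ^ (1 / m)) *
        ((Sr m M H) ^ (1 / m) * (Nr m (Fi (sm H M))) ^ (1 - 1 / m))) :=
        mul_le_mul' le_rfl (hh.trans hfin)
    _ = _ := by
        rw [← mul_assoc, ← ENNReal.ofReal_mul (by positivity)]
        congr 2
        ring

end Pool.Agent.H33PB.CRS
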